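import Mathlib
import Pool.Agent.H156.SchurAll

namespace Pool.Agent.Results.MP_55068a_an.AllIndices

open Pool.Agent.H156.Schur

/-- For all `0 < k < l`: a two-parameter family of inequalities between `c_0`, `c_k`, `c_l`
valid on `HR`, and the exact extremal values of `c_l` at every pair `(c_0, c_k) = (a, BB k l s a)`
for which the kernel polynomial has no zero in the closed unit disc, in particular whenever
`|a| + sum |gam i * s ^ i| < 1`. For `l > 2k` this reads `BB k l s a = s` and
`VV k l s a = 1 - s ^ 2 - a ^ 2`. -/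
theorem result (k l : ℕ) (hk : 0 < k) (hkl : k < l) :
    (∀ c ∈ HR, ∀ s u : ℝ, |c l + 2 * s * c k + 2 * (u - ev k l s) * c 0|
      ≤ ∑ i ∈ Finset.range (MM k l), (gam i * s ^ i) ^ 2 + u ^ 2) ∧
    (∀ s a : ℝ, |a| < 1 →
      (∀ z : ℂ, ‖z‖ ≤ 1 →
        ∑ i ∈ Finset.range (MM k l), ((gam i * s ^ i : ℝ) : ℂ) * z ^ (i * (l - k))
          + a * z ^ l ≠ 0) →
      IsGreatest (vals k l a (BB k l s a)) (VV k l s a) ∧
      IsLeast (vals k l (-a) (-(BB k l s a))) (-(VV k l s a))) ∧
    (∀ s a : ℝ, |a| + ∑ i ∈ Finset.Ico 1 (MM k l), |gam i * s ^ i| < 1 →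
      IsGreatest (vals k l a (BB k l s a)) (VV k l s a) ∧
      IsLeast (vals k l (-a) (-(BB k l s a))) (-(VV k l s a))) ∧
    (2 * k < l → ∀ s a : ℝ, BB k l s a = s ∧ VV k l s a = 1 - s ^ 2 - a ^ 2) := by
  have main : ∀ s a : ℝ, |a| < 1 → (∀ z : ℂ, ‖z‖ ≤ 1 → Polynomial.aeval z (pp k l s a) ≠ 0) →
      IsGreatest (vals k l a (BB k l s a)) (VV k l s a) ∧
      IsLeast (vals k l (-a) (-(BB k l s a))) (-(VV k l s a)) := by
    intro s a ha hz
    have h := greatest_all k l hk hkl s a ha hz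
    refine ⟨h, isLeast_of_isGreatest_neg ?_⟩
    rw [neg_neg, neg_neg]
    exact h
  refine ⟨fun c hc s u => kernel_all hc k l hk hkl s u, ?_, ?_, ?_⟩
  · intro s a ha hz
    apply main s a ha
    intro z hz1
    rw [aeval_pp]
    exact hz z hz1
  · intro s a h
    have hnn : 0 ≤ ∑ i ∈ Finset.Ico 1 (MM k l), |gam i * s ^ i| :=
      Finset.sum_nonneg (fun i _ => abs_nonneg _)
    exact main s a (by linarith) (zero_free_all k l s a h)
  · intro h2 s a
    have hM : MM k l = 2 := by
      have h1 := two_le_MM hk hkl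
      have h3 : ¬ (2 < MM k l) := by
        rw [lt_MM hkl]; omega
      omega
    have hne : ¬ (2 * (l - k) = l) := by omega
    constructor
    · unfold BB
      rw [hM, if_neg hne]
      simp [Finset.sum_range_succ, gam]
    · unfold VV ev
      rw [hM, if_neg hne]
      simp [Finset.sum_range_succ, gam]
      ring

end Pool.Agent.Results.MP_55068a_an.AllIndices
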