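import Mathlib
import Pool.Agent.H156.SchurTriple

namespace Pool.Agent.Results.MP_55068a_an.TripleIndex

open Pool.Agent.H156.Schur

/-- Complete solution for `l = 3k`, on the whole domain. The pairs `(c_0, c_k)` that occur are
exactly those with `|a| < 1` and `|b| ≤ 1 - a^2`, and for each of them the greatest and the least
value of `c_(3k)` are given by the explicit function `U3`. -/
theorem result (k : ℕ) (hk : 0 < k) (a b : ℝ) :
    ((∃ c ∈ HR, c 0 = a ∧ c k = b) ↔ (|a| < 1 ∧ |b| ≤ 1 - a ^ 2)) ∧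
    ((∃ c ∈ HR, c 0 = a ∧ c k = b) →
      IsGreatest (vals k (3 * k) a b) (U3 a b) ∧
      IsLeast (vals k (3 * k) a b) (-(U3 a (-b)))) := by
  have hdom : (∃ c ∈ HR, c 0 = a ∧ c k = b) ↔ (|a| < 1 ∧ |b| ≤ 1 - a ^ 2) := by
    constructor
    · rintro ⟨c, hc, h0, h1⟩
      have e1 := c0_lt hc
      have e2 := domain_bound hc k hk
      rw [h0] at e1
      rw [h0, h1] at e2
      exact ⟨e1, e2⟩
    · rintro ⟨ha, hb⟩
      obtain ⟨c, hc, h0, h1, -⟩ := (greatest_three a b k hk ha hb).1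
      exact ⟨c, hc, h0, h1⟩
  refine ⟨hdom, fun h => ?_⟩
  obtain ⟨ha, hb⟩ := hdom.mp h
  exact ⟨greatest_three a b k hk ha hb, least_three a b k hk ha hb⟩

end Pool.Agent.Results.MP_55068a_an.TripleIndex
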